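import Pool.Agent.Helper69.MF.Defs

/-!
# Project MF (MP_9583f0_gt), part A: area and homotopy.  Statements with proofs
-/

set_option autoImplicit false

open Set Topology Filter MeasureTheory
open Pool.Agent.Helper31.CY

namespace Pool.Agent.Helper69.MF

/-! ### area -/

/-- LIN (area of graphs of linear functions).

PROOF.  Let `V = EuclideanSpace ℝ (Fin 2)`.  `μH[2]` on `V` is an additive Haar measure (instance `MeasureTheory.isAddHaarMeasure_hausdorffMeasure`, `finrank = 2`), so it is positive on nonempty open sets, finite on bounded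
sets and `μH[2] (M '' A) = |det M| μH[2] A` for linear `M` (`Measure.addHaar_image_linearMap`).  `L0' y = y 0 • τ + y 1 • n` is a linear isometry `V → E3`, and isometries preserve `μH[2]` (`Isometry.hausdorffMeasure_image`).
`L' y = y 0 • τ + y 1 • n + (α y 0 + β y 1) • k`: the plane `L' V` has an orthonormal basis `f₁ = (τ + α k)/√(1+α²)`, `f₂ = ` unit vector in the direction of `n + β k - (αβ/(1+α²)) (τ + α k)`; so `L' = J ∘ M` with the isometry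
`J y = y 0 • f₁ + y 1 • f₂` and `M` upper triangular with `det M = √(1+α²+β²)` (Gram determinant `(1+α²)(1+β²) - α²β² = 1 + α² + β²`).  Hence `μH[2] (L' '' A) = μH[2] (M '' A) = √(1+α²+β²) μH[2] A = √(1+α²+β²) μH[2] (L0' '' A)`.
(`ℝ × ℝ ≃ V`; the norm on `ℝ × ℝ` is not used.) -/
def StLIN : Prop := ∀ (τ n k : E3) (α β : ℝ) (A : Set (ℝ × ℝ)), ON τ n k → MeasurableSet A →
  ar ((fun q : ℝ × ℝ => q.1 • τ + q.2 • n + (α * q.1 + β * q.2) • k) '' A) =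
    ENNReal.ofReal (Real.sqrt (1 + α ^ 2 + β ^ 2)) *
      ar ((fun q : ℝ × ℝ => q.1 • τ + q.2 • n) '' A) ∧
  (IsOpen A → A.Nonempty → 0 < ar ((fun q : ℝ × ℝ => q.1 • τ + q.2 • n) '' A)) ∧
  (Bornology.IsBounded A → ar ((fun q : ℝ × ℝ => q.1 • τ + q.2 • n) '' A) < ⊤)

/-- the graph with a crease -/
def G1 (p τ n k : E3) (ρ : ℝ) (g : ℝ → ℝ → ℝ) : Set E3 :=
  {x | ∃ a v : ℝ, |a| + |v| < ρ ∧ x = fr p τ n k a v (g a |v|)}

/-- the graph with the corner cut off -/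
noncomputable def G2 (p τ n k : E3) (c ρ : ℝ) (g : ℝ → ℝ → ℝ) : Set E3 :=
  {x | ∃ a v : ℝ, |a| + |v| < ρ ∧ x = fr p τ n k a v (g a |v| + c / 2 * (ρ - |a| - |v|))}

/-- CRS (cutting off the corner decreases the area).  Uses `StLIN`.

PROOF.  `B = {|a| + |v| < ρ}`, `η(a,v) = g a v - c v`, which is `ε`-Lipschitz for `|·| + |·|` on the square.  `a, v, w` denote the coordinates of a point `p + aτ + vn + wk`; the distance of two points is
`√((a-a')² + (v-v')² + (w-w')²)`, at least `|a-a'|` and `|v-v'|`.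
(1) `Z = {p + aτ + vn + c|v| k : (a,v) ∈ B}`.  The map `G1 → Z`, `w ↦ w - η(a,|v|)`, is `(1+2ε)`-Lipschitz and onto, so `ar Z ≤ (1+2ε)² ar G1` (`LipschitzOnWith.hausdorffMeasure_image_le`).  `Z ⊇ Z₊ ∪ Z₋` (`v > 0`, `v < 0`), disjoint, measurable (images of open sets are
countable unions of compact sets; or: relatively open pieces cut out by `⟨x-p,n⟩ > 0`), and by LIN (`α = 0`, `β = ±c`; translations are isometries) `ar Z₊ + ar Z₋ = √(1+c²) (ar L0(B₊) + ar L0(B₋)) = √(1+c²) M`, `M = ar L0(B) ∈ (0,∞)` (the line `v = 0` has area zero: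
its area is that of `L0({v = 0} ∩ B)`, `2`-dimensional Haar measure of a segment).
(2) `G2` is covered by the four parts `±a ≥ 0`, `±v ≥ 0`; on `a, v ≥ 0` the function is `(c v + (c/2)(ρ - a - v)) + η(a,v)`, so this part is a `(1+2ε)`-Lipschitz image of the graph of the affine function with `α = -c/2`, `β = c/2` (signs change in the other parts): LIN: `ar G2 ≤ (1+2ε)² √(1+c²/2) M`
(the areas of the closed quadrants of `B` add up to `M`, as the lines `a = 0`, `v = 0` have area zero).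
(3) Choose `ε ≤ 1` with `(1+2ε)⁴ √(1+c²/2) < √(1+c²)`.  The same argument as in (2) gives `ar G1 ≤ (1+2ε)² √(1+c²) M < ∞`. -/
def StCRS : Prop := ∀ (c : ℝ), 0 < c → ∃ ε : ℝ, 0 < ε ∧ ε ≤ 1 ∧ ∀ (p τ n k : E3) (ρ : ℝ)
  (g : ℝ → ℝ → ℝ), ON τ n k → 0 < ρ → Clo c ε ρ g →
  ar (G2 p τ n k c ρ g) < ar (G1 p τ n k ρ g) ∧ ar (G1 p τ n k ρ g) < ⊤

/-- GPH (a regular point where the rotation field is neither tangent nor normal).  Uses `StTC2` (`aTC2` in Pool/Agent/Helper31/CY/All.lean).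

PROOF.  `f`, `U` from RegP; `G = (D 0 f p, D 1 f p, D 2 f p) ≠ 0`, `fderiv f p v = dt G v`; `TCn S p = {v | dt G v = 0}` (TC2).  `Jv p = rad p • nv φ` where `p = (rad p cos φ, rad p sin φ, p 2)`; `n = nv φ`, `dt p n = 0`.  `α = dt G n ≠ 0` as `Jv p ∉ TCn S p`.
`G_P = G - α n ≠ 0`: otherwise `v ∈ TCn S p` would imply `dt v n = 0`, so `dt v (Jv p) = 0` for all of them.  `k = -sign(α) G_P/|G_P|`, `β = dt G k ≠ 0`, `β` has the sign of `-α`, `c = -α/β > 0`; `τ` = cross product of `n` and `k`: ON, `dt G τ = 0`.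
Implicit function theorem for `F(a,v,w) = f(fr p τ n k a v w)` (`C¹` near `0`, `F_w = β ≠ 0`, `F_a = 0`, `F_v = α`): there are `r > 0` and `g` with: for `|a|, |v|, |w| ≤ r`: `F = 0 ↔ w = g a v`; `g` is `C¹`, `g 0 0 = 0`, `∂_a g(0,0) = 0`, `∂_v g (0,0) = -α/β = c`.  (Or: for a given
`ε`, `F/β = w - c v + R`, `R` with small Lipschitz constant near `0` (`HasStrictFDerivAt`); uniqueness and existence of `w` by monotonicity in `w`.)  Strict differentiability of `g` at `0` gives Clo for small `ρ`, and `ρ ≤ ρ0` with `(2c+1)ρ0 ≤ r`, `ρ0 ≤ r`, box inside `U`. -/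
def StGPH : Prop := ∀ (S : Set E3) (p : E3), RegP S p → p ∈ S → 0 < rad p → ¬ Tgt S p → ¬ Nrm S p →
  ∃ (τ k : E3) (φ c : ℝ), ON τ (nv φ) k ∧ dt p (nv φ) = 0 ∧ 0 < c ∧ ∀ ε : ℝ, 0 < ε →
    ∃ ρ0 : ℝ, 0 < ρ0 ∧ ∀ ρ : ℝ, 0 < ρ → ρ ≤ ρ0 → ∃ g : ℝ → ℝ → ℝ, Clo c ε ρ g ∧
      ∀ a v w : ℝ, |a| ≤ ρ → |v| ≤ ρ → |w| ≤ (2 * c + 1) * ρ →
        (fr p τ (nv φ) k a v w ∈ S ↔ w = g a v)

/-- FNT (finite area).

PROOF.  `S` is compact, so it is enough that every `p ∈ S` has a neighbourhood `V` with `ar (S ∩ V) < ∞`.  A bounded subset of a plane `{x | dt x N = c}` has finite area (contained in an isometric image of a disc of `EuclideanSpace ℝ (Fin 2)`, where `μH[2]` is a Haar measure), so has a bounded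
subset of `Ycone`, `Tcone`, of the half-plane, and Lipschitz images of such sets.  `ModelAt`, `BdyP`: the derivative of `Φ` at `p` is invertible (injective on `E3`), so `Φ` has a local inverse which is `C¹`, hence Lipschitz near `0`, and `S ∩ V` is contained in its image of a bounded subset of the cone.
`RegP`: let `D i f p ≠ 0` for one `i`; `Φ x = x - p` with the `i`-th coordinate replaced by `f x` is a local `C¹` diffeomorphism and `S ∩ V ⊆ Φ⁻¹{y i = 0}`. -/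
def StFNT : Prop := ∀ (S Γ : Set E3), MPS S Γ → ar S < ⊤

/-- PSH (the push).

PROOF.  `a = dt (x-p) τ`, `v = dt (x-p) n`, `w = dt (x-p) k`, `x = fr p τ n k a v w` (ON: the three vectors are an orthonormal basis), `ζ = max 0 (ρ - |a| - |v|) ∈ [0,ρ]`, `χ(w) = max 0 (min 1 ((2c+1-|w|/ρ)/c)) ∈ [0,1]`: `χ = 1` for `|w| ≤ (c+1)ρ`, `χ = 0` for `|w| ≥ (2c+1)ρ`, Lipschitz constant
`1/(cρ)`.  (1) composition of continuous functions.  (2) `ζ = 0` or `χ = 0`.  (3) `a, v` do not change, the new `w` is `m(w) = w - s(c/2)ζχ(w)`, `m` is strictly increasing (`s(c/2)ζ/(cρ) ≤ 1/2`) and fixes `±(2c+1)ρ`.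
(4) Let `W = g a |v| + (c/2)(ρ - |a| - |v|)`, `|a| + |v| < ρ`.  `|g a |v| - c|v|| ≤ ε(|a|+|v|) ≤ ρ` (Clo with `a' = v' = 0`, `ε ≤ 1`), so `-ρ ≤ W ≤ c|v| + (c/2)(ρ-|v|) + ρ ≤ (c+1)ρ`, `χ(W) = 1`, `m(W) = g a |v|` (`s = 1`), and `W` is the only solution of `m(w) = g a |v|`.  So for `|a|+|v| < ρ`, `|w| ≤ (2c+1)ρ`:
`push 1 x ∈ S' ↔ m(w) = g a |v| ↔ w = W`; for the other `x`: `push 1 x = x`.  In the region `|a|+|v|<ρ`, `|w| ≤ (2c+1)ρ` the set `S'` is `G1` (and `|g a |v|| ≤ (c+1)ρ`), so `{x | push 1 x ∈ S'} = (S' \ G1) ∪ G2`. -/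
def StPSH : Prop := ∀ (p τ n k : E3) (c ρ : ℝ), ON τ n k → 0 < c → 0 < ρ →
  Continuous (fun q : ℝ × E3 => push p τ n k c ρ q.1 q.2) ∧
  (∀ (s : ℝ) (x : E3), (ρ ≤ |dt (x - p) τ| + |dt (x - p) n| ∨ (2 * c + 1) * ρ ≤ |dt (x - p) k|) →
    push p τ n k c ρ s x = x) ∧
  (∀ (s : ℝ) (x : E3), 0 ≤ s → s ≤ 1 → |dt (x - p) τ| + |dt (x - p) n| < ρ →
    |dt (x - p) k| < (2 * c + 1) * ρ → dt (push p τ n k c ρ s x - p) τ = dt (x - p) τ ∧
    dt (push p τ n k c ρ s x - p) n = dt (x - p) n ∧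
    |dt (push p τ n k c ρ s x - p) k| < (2 * c + 1) * ρ) ∧
  (∀ x : E3, x = fr p τ n k (dt (x - p) τ) (dt (x - p) n) (dt (x - p) k)) ∧
  ∀ (ε : ℝ) (g : ℝ → ℝ → ℝ) (S' : Set E3), 0 < ε → ε ≤ 1 → Clo c ε ρ g →
    (∀ a v w : ℝ, |a| + |v| < ρ → |w| ≤ (2 * c + 1) * ρ →
      (fr p τ n k a v w ∈ S' ↔ w = g a |v|)) →
    {x | push p τ n k c ρ 1 x ∈ S'} = (S' \ G1 p τ n k ρ g) ∪ G2 p τ n k c ρ g ∧
    G1 p τ n k ρ g = S' ∩ {x | |dt (x - p) τ| + |dt (x - p) n| < ρ ∧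
      |dt (x - p) k| < (2 * c + 1) * ρ}

/-! ### homotopy -/

/-- HTE (homotopy is an equivalence relation).

PROOF.  Constant homotopy; `H(1-t, s)` (`unitInterval.symm`); concatenation in `t` (`H(2t,s)` for `t ≤ 1/2`, `H'(2t-1,s)` for `t ≥ 1/2`, they agree for `t = 1/2`; or use `ContinuousMap.Homotopy.trans` for maps from `unitInterval` to `E3` and check the two further conditions).
(4) from the properties of `H` for `t = 1` (`γ' = H(1,·)`).  (5) `H(t,s) = Θ(t, γ s)`.  (6) `f ∘ H`. -/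
def StHTE : Prop := ∀ Γ : Set E3, (∀ γ, Lp Γ γ → Hot Γ γ γ) ∧
  (∀ γ γ', Hot Γ γ γ' → Hot Γ γ' γ) ∧ (∀ γ γ' γ'', Hot Γ γ γ' → Hot Γ γ' γ'' → Hot Γ γ γ'') ∧
  (∀ γ γ', Hot Γ γ γ' → Lp Γ γ') ∧
  (∀ (Θ : unitInterval × E3 → E3) (γ : unitInterval → E3), Continuous Θ →
    (∀ t x, x ∉ Γ → Θ (t, x) ∉ Γ) → Lp Γ γ →
    Hot Γ (fun s => Θ (0, γ s)) (fun s => Θ (1, γ s))) ∧
  ∀ (f : E3 → E3) (γ γ' : unitInterval → E3), Continuous f → (∀ x, x ∉ Γ → f x ∉ Γ) →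
    Hot Γ γ γ' → Hot Γ (fun s => f (γ s)) (fun s => f (γ' s))

/-- GEN (general position).

PROOF.  `γ` has a positive distance `3δ` from the compact set `Γ`.  Bernstein polynomials of the three coordinates (`bernsteinApproximation_uniform`; they have the same values at `0` and `1`) give a polynomial (so Lipschitz) closed path `γ'` with `|γ' - γ| ≤ δ`.  The image of `s ↦ (γ' s 0, γ' s 1)` has
measure zero in the plane (a Lipschitz image of `[0,1]`, Hausdorff dimension at most `1`), so there are arbitrarily small `(e0, e1)` with `(-e0,-e1)` not in this image, and `e2` small with `γ' 0 2 + e2 ∉ {0, h}`.  `γ1 = γ' + (e0,e1,e2)`, `|e| ≤ δ`.  `H(t,s) = (1-t) γ s + t γ1 s` has distance at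
most `2δ` from `γ s`, so it is not in `Γ`, and `H(t,0) = H(t,1)`. -/
def StGEN : Prop := ∀ (r0 r1 h : ℝ), 0 < r0 → 0 < r1 → 0 < h → ∀ γ : unitInterval → E3,
  Lp (circ r0 0 ∪ circ r1 h) γ → ∃ γ1 : unitInterval → E3, Hot (circ r0 0 ∪ circ r1 h) γ γ1 ∧
    (∀ s, 0 < rad (γ1 s)) ∧ (γ1 0) 2 ≠ 0 ∧ (γ1 0) 2 ≠ h

/-- ANG (paths which avoid the axis).  Uses `StHTE`.

PROOF.  A point is in `Γ = circ r0 0 ∪ circ r1 h` or not according to `(rad x, x 2)` only (`rad x = r0`, `x 2 = 0` or `rad x = r1`, `x 2 = h`).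
(1) `H(t,s) = pt (rad (γ s) cos((1-t)ψ s)) (rad (γ s) sin((1-t)ψ s)) (γ s 2)`.
(2) `c s = (γ s 0 + i γ s 1)/rad (γ s)` is a path in `Circle`; lift it to a continuous `ψ : [0,1] → ℝ`, `c s = e^{iψ s}` (covering map `Circle.exp`/`ℝ → Circle`: path lifting `IsCoveringMap.liftPath`, or a uniform subdivision and `Complex.arg` on short pieces), `ψ 1 = ψ 0 + 2πw`, `w ∈ ℤ`.
`q s = (rad (γ s), γ s 2)`, `q 0 = q 1`.  `P(a,b)` = the point with `(rad, height) = q a` and angle `ψ b`; `γ s = P(s,s)`.  Step 1: `H(t,s) = P((1-t)s + t min(2s,1), (1-t)s + t max(2s-1,0))`: closed as `P(0,0) = P(1,1)` (at `s = 1` both parameters are `1`).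
Now `γ' s = P(min(2s,1), max(2s-1,0))`.  Step 2: for `s ≤ 1/2` keep `P(2s,0)`; for `s ≥ 1/2` the point has height `z₀ = γ 0 2 ∉ {0,h}` and horizontal part `rad(γ 0) e^{iψ(2s-1)}`: replace it by `rad(γ 0)((1-t) e^{iψ(2s-1)} + t e^{iψ 0})` (it agrees at `s = 1/2` and at `s = 1`, where it is
`rad(γ 0)e^{iψ 0}`); a point of height `z₀` is not in `Γ`.  The result is `P(min(2s,1), 0)`, which is closed and has constant angle `ψ 0`: (1) applies to it and gives `s ↦ pt (rad (γ (min(2s,1)))) 0 (γ (min(2s,1)) 2)`.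
Step 3: reparametrize: `H(t,s) = pt (rad (γ u)) 0 (γ u 2)`, `u = (1-t) min(2s,1) + t s`. -/
def StANG : Prop := ∀ (r0 r1 h : ℝ), 0 < r0 → 0 < r1 → 0 < h → ∀ γ : unitInterval → E3,
  Lp (circ r0 0 ∪ circ r1 h) γ → (∀ s, 0 < rad (γ s)) →
  ((∃ ψ : unitInterval → ℝ, Continuous ψ ∧ ψ 0 = ψ 1 ∧ ∀ s, γ s =
      pt (rad (γ s) * Real.cos (ψ s)) (rad (γ s) * Real.sin (ψ s)) ((γ s) 2)) ∨
    ((γ 0) 2 ≠ 0 ∧ (γ 0) 2 ≠ h)) →
  Hot (circ r0 0 ∪ circ r1 h) γ (fun s => pt (rad (γ s)) 0 ((γ s) 2))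

/-- FLD (folding does not change the homotopy class).  Uses `StHTE`, `StGEN`, `StANG`.

PROOF.  `fold φ` is continuous; `n = nv φ`, `dt n n = 1`, `n 2 = 0`; `fold φ x` is `x` if `dt x n ≥ 0`, the mirror image `x - 2 (dt x n) n` otherwise, so `rad (fold φ x) = rad x`, `(fold φ x) 2 = x 2`, `dt (fold φ x) n = |dt x n| ≥ 0`; `x ∈ Γ ↔ fold φ x ∈ Γ`.
`γ ≃ γ1` (GEN), so `fold ∘ γ ≃ fold ∘ γ1` (HTE (6)).  ANG (second alternative): `γ1 ≃ α = pt (rad γ1) 0 (γ1 2)`.  ANG (first alternative) for `fold ∘ γ1`: `m = pt (cos φ) (sin φ) 0`, `ψ s = φ + arccos(dt (fold (γ1 s)) m / rad (γ1 s))` is continuous, `ψ 0 = ψ 1`, and `fold (γ1 s)` has the horizontal part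
`rad (cos(ψ-φ) m + sin(ψ-φ) n)` as `dt (·) n ≥ 0`.  So `fold ∘ γ1 ≃ α` (the same `α`).  Transitivity. -/
def StFLD : Prop := ∀ (r0 r1 h φ : ℝ), 0 < r0 → 0 < r1 → 0 < h → ∀ γ : unitInterval → E3,
  Lp (circ r0 0 ∪ circ r1 h) γ → Hot (circ r0 0 ∪ circ r1 h) γ (fun s => fold φ (γ s))

/-- CUT (cut and reflect).  Uses `StFLD`.

PROOF.  (1) `cutr φ S = (fold φ)⁻¹ S` is closed, and `‖fold φ x‖ = ‖x‖`, so it is bounded.  (2) `n = nv φ`, `nv (φ+π) = -n`; `R` = reflection (an isometry).  `cutr φ S ⊆ (S ∩ {dt x n ≥ 0}) ∪ R(S ∩ {dt x n > 0})`, so `ar ≤ ar(S ∩ {≥ 0}) + ar(S ∩ {> 0})`; for `φ + π`: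
`≤ ar(S ∩ {≤ 0}) + ar(S ∩ {< 0})`.  The sum is `(ar(S∩{≥0}) + ar(S∩{<0})) + (ar(S∩{>0}) + ar(S∩{≤0})) = 2 ar S`.  (3) `γ ∈ 𝒞`: `fold ∘ γ ∈ 𝒞` (FLD), so it meets `S`, so `γ` meets `cutr φ S`.
(4) both sets are compact and spanning, so `ar S ≤ ar (cutr φ S)`, `ar S ≤ ar (cutr (φ+π) S)`, and with (2) and `ar S < ∞` they are equal. -/
def StCUT : Prop := ∀ (r0 r1 h φ : ℝ), 0 < r0 → 0 < r1 → 0 < h → ∀ S : Set E3, IsCompact S →
  IsCompact (cutr φ S) ∧ ar (cutr φ S) + ar (cutr (φ + Real.pi) S) ≤ 2 * ar S ∧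
  ∀ 𝒞 : Set (unitInterval → E3), HC (circ r0 0 ∪ circ r1 h) 𝒞 → Spans 𝒞 S →
    Spans 𝒞 (cutr φ S) ∧ (Mnz 𝒞 S → ar S < ⊤ → Mnz 𝒞 (cutr φ S) ∧ ar (cutr φ S) = ar S)

/-- BAD (at the regular points of a minimizer the rotation field is tangent or normal).  Uses `StGPH`, `StCRS`, `StPSH`, `StHTE`, `StCUT`, `StFNT`.

PROOF.  Suppose `q ∈ S \ Γ` is regular, off the axis, neither Tgt nor Nrm.  GPH: `τ, k, φ, c` (`n = nv φ`); `ε` from CRS for `c`; `ρ0` from GPH, choose `ρ ≤ ρ0` so small that the box `{|a|+|v| ≤ ρ, |w| ≤ (2c+1)ρ}` around `q` does not meet `Γ` (closed, `q ∉ Γ`).  `S' = cutr φ S` is a minimizer and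
`ar S' = ar S < ∞` (FNT, CUT).  `fold φ (fr q τ n k a v w) = fr q τ n k a |v| w` (`dt q n = 0`, ON), so in the box `S'` is the graph of `g a |v|`.  `S'' = {x | push 1 x ∈ S'}`: compact (closed, as `push 1` is continuous; bounded, as `push 1 x = x` outside the box), spanning: for `γ ∈ 𝒞`:
`s ↦ push 1 (γ s)` is homotopic to `γ` by HTE (5) with `Θ(t,x) = push t x` (PSH (2), (3): points of the box stay in the box, the others do not move, so `Θ` maps the complement of `Γ` to itself; `push 0 x = x`), so it is in `𝒞` and meets `S'`.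
`S'' = (S' \ G1) ∪ G2`, `G1 = S' ∩ (open set)` is Borel: `ar S'' ≤ ar (S' \ G1) + ar G2 < ar (S' \ G1) + ar G1 = ar S'` (finite), a contradiction to the minimality of `S'`. -/
def StBAD : Prop := ∀ (r0 r1 h : ℝ), 0 < r0 → 0 < r1 → 0 < h → ∀ (S : Set E3)
  (𝒞 : Set (unitInterval → E3)), HC (circ r0 0 ∪ circ r1 h) 𝒞 → MPS S (circ r0 0 ∪ circ r1 h) →
  Mnz 𝒞 S → ∀ q ∈ S, q ∉ circ r0 0 ∪ circ r1 h → RegP S q → 0 < rad q → Tgt S q ∨ Nrm S q

end Pool.Agent.Helper69.MF
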