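import Pool.Agent.Helper31.CY.All
import Pool.Agent.Helper7.MF.M_LIN
import Pool.Agent.Helper36.MF.M_CRS
import Pool.Agent.Helper71.MF.M_GPH
import Pool.Agent.Helper42.MF.M_FNT
import Pool.Agent.Helper33.MF.M_PSH
import Pool.Agent.Helper47.MF.M_HTE
import Pool.Agent.Helper2.MF.M_GEN
import Pool.Agent.Helper16.MF.M_ANG
import Pool.Agent.Helper10.MF.M_FLD
import Pool.Agent.Helper99.MF.M_CUT
import Pool.Agent.Helper70.MF.M_BAD
import Pool.Agent.Helper24.MF.M_FCE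
import Pool.Agent.Helper53.MF.M_G0
import Pool.Agent.Helper3.MF.M_G1
import Pool.Agent.Helper55.MF.M_G2
import Pool.Agent.Helper78.MF.M_G3
import Pool.Agent.Helper60.MF.M_G4
import Pool.Agent.Helper20.MF.M_G5
import Pool.Agent.Helper95.MF.M_G6
import Pool.Agent.Helper9.MF.M_G7
import Pool.Agent.Helper6.MF.M_G8

/-!
# Project MF (MP_9583f0_gt): assembly
-/

set_option autoImplicit false

open Set Topology Filter MeasureTheory
open Pool.Agent.Helper31.CY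

namespace Pool.Agent.Helper69.MF

theorem aLIN : StLIN := Pool.Agent.Helper7.MF.hLIN
theorem aCRS : StCRS := Pool.Agent.Helper36.MF.hCRS aLIN
theorem aGPH : StGPH := Pool.Agent.Helper71.MF.hGPH aTC2
theorem aFNT : StFNT := Pool.Agent.Helper42.MF.hFNT
theorem aPSH : StPSH := Pool.Agent.Helper33.MF.hPSH
theorem aHTE : StHTE := Pool.Agent.Helper47.MF.hHTE
theorem aGEN : StGEN := Pool.Agent.Helper2.MF.hGEN
theorem aANG : StANG := Pool.Agent.Helper16.MF.hANG aHTE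
theorem aFLD : StFLD := Pool.Agent.Helper10.MF.hFLD aHTE aGEN aANG
theorem aCUT : StCUT := Pool.Agent.Helper99.MF.hCUT aFLD
theorem aBAD : StBAD := Pool.Agent.Helper70.MF.hBAD aGPH aCRS aPSH aHTE aCUT aFNT
theorem aFCE : StFCE := Pool.Agent.Helper24.MF.hFCE
theorem aG0 : StG0 := Pool.Agent.Helper53.MF.hG0 aTC1 aMDY aMDT
theorem aG1 : StG1 := Pool.Agent.Helper3.MF.hG1 aTC2
theorem aG2 : StG2 := Pool.Agent.Helper55.MF.hG2 aTC2
theorem aG3 : StG3 := Pool.Agent.Helper78.MF.hG3 aTC1 aTC2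
theorem aG4 : StG4 := Pool.Agent.Helper60.MF.hG4 aFCE aG0 aG1
theorem aG5 : StG5 := Pool.Agent.Helper20.MF.hG5 aG1 aG2 aG3 aG4
theorem aG6 : StG6 := Pool.Agent.Helper95.MF.hG6 aTC2
theorem aG7 : StG7 := Pool.Agent.Helper9.MF.hG7 aFCE aG0
theorem aG8 : StG8 := Pool.Agent.Helper6.MF.hG8 aG5 aG6 aG7

/-- an area-minimizing film spanning two coaxial circles is rotationally symmetric -/
theorem minimizing (r0 r1 h : ℝ) (h0 : 0 < r0) (h1 : 0 < r1) (hh : 0 < h) (S : Set E3)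
    (𝒞 : Set (unitInterval → E3)) (hC : HC (circ r0 0 ∪ circ r1 h) 𝒞)
    (hS : MPS S (circ r0 0 ∪ circ r1 h)) (hM : Mnz 𝒞 S) :
    RotInv S ∧ (Discs S r0 r1 h ∨ Catn S r0 r1 h ∨ CatY S r0 r1 h) ∧
      (Sing S (circ r0 0 ∪ circ r1 h) → CatY S r0 r1 h ∧ Nonempty (S ≃ₜ CY0)) := by
  have hR : RotInv S := by
    apply aG8 r0 r1 h S h0 h1 hS
    intro q hq hqG hr hrad
    exact aBAD r0 r1 h h0 h1 hh S 𝒞 hC hS hM q hq hqG hr hrad
  have hc := aCLS S r0 r1 h h0 h1 hh hS hR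
  exact ⟨hR, hc.1, fun hs => ⟨hc.2 hs, aHOM S r0 r1 h (hc.2 hs)⟩⟩

end Pool.Agent.Helper69.MF
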