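import Pool.Agent.Helper31.CY.Defs

/-!
# Project MF (MP_9583f0_gt): area-minimizing films spanning two coaxial circles, definitions

THEOREM.  Let `Γ` be the union of two coaxial circles, `𝒞` a set of closed curves in the complement of `Γ` which is closed under (free) homotopy
in the complement of `Γ`.  Let `S` be a minimal Plateau surface with boundary `Γ` which meets every curve of `𝒞` and has the least area
(two-dimensional Hausdorff measure) among all compact sets which meet every curve of `𝒞`.  Then `S` is rotationally invariant, so it is a pair of flat discs, a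
piece of a catenoid or `Cat_Y`; if it is singular it is `Cat_Y`.

Idea.  For a half-space `H = {⟨x, n⟩ ≥ 0}` bounded by a vertical plane through the axis let `fold` be the folding map onto `H`.  `fold⁻¹ S` meets every curve of `𝒞`
(`fold ∘ γ` is homotopic to `γ` in the complement of `Γ`), and the areas of the two sets obtained for `n` and `-n` add up to `2 area S`, so both are minimizers.  If the rotation
field is not tangent to `S` at some point `p` of the plane then `fold⁻¹ S` has a crease at `p`, and its area can be decreased.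
-/

set_option autoImplicit false

open Set Topology Filter MeasureTheory

namespace Pool.Agent.Helper69.MF

open Pool.Agent.Helper31.CY

/-- inner product -/
def dt (x y : E3) : ℝ := x 0 * y 0 + x 1 * y 1 + x 2 * y 2

/-- closed path in the complement of `Γ` -/
def Lp (Γ : Set E3) (γ : unitInterval → E3) : Prop :=
  Continuous γ ∧ γ 0 = γ 1 ∧ ∀ s, γ s ∉ Γ

/-- the closed paths `γ`, `γ'` are freely homotopic in the complement of `Γ` -/
def Hot (Γ : Set E3) (γ γ' : unitInterval → E3) : Prop :=
  ∃ H : unitInterval × unitInterval → E3, Continuous H ∧ (∀ s, H (0, s) = γ s) ∧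
    (∀ s, H (1, s) = γ' s) ∧ (∀ t, H (t, 0) = H (t, 1)) ∧ ∀ q, H q ∉ Γ

/-- a set of closed paths in the complement of `Γ` which is closed under homotopy -/
def HC (Γ : Set E3) (𝒞 : Set (unitInterval → E3)) : Prop :=
  (∀ γ ∈ 𝒞, Lp Γ γ) ∧ ∀ γ ∈ 𝒞, ∀ γ', Hot Γ γ γ' → γ' ∈ 𝒞

/-- `S` meets every path of `𝒞` -/
def Spans (𝒞 : Set (unitInterval → E3)) (S : Set E3) : Prop := ∀ γ ∈ 𝒞, ∃ s, γ s ∈ S

/-- area -/
noncomputable def ar (S : Set E3) : ENNReal := Measure.hausdorffMeasure 2 S

/-- `S` has the least area among the compact sets which meet every path of `𝒞` -/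
def Mnz (𝒞 : Set (unitInterval → E3)) (S : Set E3) : Prop :=
  IsCompact S ∧ Spans 𝒞 S ∧ ∀ S' : Set E3, IsCompact S' → Spans 𝒞 S' → ar S ≤ ar S'

/-- unit normal of a vertical plane through the axis -/
noncomputable def nv (φ : ℝ) : E3 := pt (-Real.sin φ) (Real.cos φ) 0

/-- folding onto the half-space `{x | 0 ≤ dt x (nv φ)}` -/
noncomputable def fold (φ : ℝ) (x : E3) : E3 := x - (2 * min (dt x (nv φ)) 0) • nv φ

/-- cut and reflect -/
def cutr (φ : ℝ) (S : Set E3) : Set E3 := {x | fold φ x ∈ S}

/-- orthonormal triple -/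
def ON (e f g : E3) : Prop :=
  dt e e = 1 ∧ dt f f = 1 ∧ dt g g = 1 ∧ dt e f = 0 ∧ dt e g = 0 ∧ dt f g = 0

/-- the point with the coordinates `a, v, w` in the frame `τ, n, k` at `p` -/
noncomputable def fr (p τ n k : E3) (a v w : ℝ) : E3 := p + a • τ + v • n + w • k

/-- `g` is `ε`-close to the linear function `c v` on the square of side `2ρ` -/
def Clo (c ε ρ : ℝ) (g : ℝ → ℝ → ℝ) : Prop :=
  g 0 0 = 0 ∧ ∀ a v a' v' : ℝ, |a| ≤ ρ → |v| ≤ ρ → |a'| ≤ ρ → |v'| ≤ ρ →
    |(g a v - c * v) - (g a' v' - c * v')| ≤ ε * (|a - a'| + |v - v'|)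

/-- push in the direction `-k` near `p` -/
noncomputable def push (p τ n k : E3) (c ρ s : ℝ) (x : E3) : E3 :=
  x - (s * (c / 2) * max 0 (ρ - |dt (x - p) τ| - |dt (x - p) n|) *
    max 0 (min 1 ((2 * c + 1 - |dt (x - p) k| / ρ) / c))) • k

/-- the rotation field is tangent to `S` at `q` -/
def Tgt (S : Set E3) (q : E3) : Prop := Jv q ∈ TCn S q

/-- the rotation field is normal to `S` at `q` -/
def Nrm (S : Set E3) (q : E3) : Prop := ∀ v ∈ TCn S q, dt v (Jv q) = 0

end Pool.Agent.Helper69.MF
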