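import Pool.Agent.Helper69.MF.StA
import Pool.Agent.Helper31.CY.St1
import Pool.Agent.Helper31.CY.St3

/-!
# Project MF (MP_9583f0_gt), part B: from the tangency condition to rotational invariance.  Statements with proofs

Proved statements of project CY are in Pool/Agent/Helper31/CY/All.lean (`aTC1`, `aTC2`, `aMDY`, `aMDT`, `aCLS`, `aHOM`, ...).
-/

set_option autoImplicit false

open Set Topology Filter MeasureTheory
open Pool.Agent.Helper31.CY

namespace Pool.Agent.Helper69.MF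

/-- a family of open faces of the cone `M` with unit normals -/
def Faces (M : Set E3) (m : ℕ) (F : Fin m → Set E3) (N : Fin m → E3) : Prop :=
  (∀ i, dt (N i) (N i) = 1) ∧
  (∀ i, ∀ y ∈ F i, y ∈ M ∧ ∃ ε : ℝ, 0 < ε ∧ ∀ x : E3, dist x y < ε → (x ∈ M ↔ dt x (N i) = 0)) ∧
  (∀ y ∈ M, ∀ ε : ℝ, 0 < ε → ∃ i, ∃ x ∈ F i, dist x y < ε) ∧
  (∀ i, ∀ ε : ℝ, 0 < ε → ∃ x ∈ F i, dist x 0 < ε) ∧
  ∀ i, ∃ j, dt (N i) (N j) ≠ 0 ∧ dt (N i) (N j) ^ 2 ≠ 1

/-- FCE (faces of the cones `Y`, `T`).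

PROOF.  `Y`: `F i = {t d_i + s e₃ : t > 0}`, `d_i = td i`, `N i = (-(d_i).2, (d_i).1, 0)`; near a point of `F i` the other two closed half-planes and the opposite half-plane of `F i` are absent, so `M` is the plane `dt x (N i) = 0`.  `dt (N i) (N j) = -1/2` for `i ≠ j`.  Density: a point `(0,0,s)` of the
spine is the limit of `(0,0,s) + t d_i`.  `dt v (N i) = 0` for all `i` implies `v 0 = v 1 = 0`.
`T`: the six faces `F = {s v_i + t v_j : s, t > 0}`, `i < j`, `v_i = tv i`, with the normal `N = (v_k - v_l)/√8`, `{k,l}` the other two indices (`v_i · v_k = -1` for `i ≠ k`, `v_i · v_i = 3`).  A point `x = ∑ c_i v_i` has unique coefficients with `min c = 0`; `x ∈ T` iff at least two coefficients vanish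
(compare the proof of MDT); near `y = s v_i + t v_j`, `s,t > 0`: write `x = a v_i + b v_j + c v_k + d v_l` with `c + d = 0`... i.e. `x ∈ T` iff `c_k = c_l` (after normalising `min c = 0` the coefficients of `v_i, v_j` are positive) iff `dt x (v_k - v_l) = 0`.  Scalar products of the `v_k - v_l` (norm² `8`): `±4` if they share
one index (then `dt = ±1/2`), `0` if disjoint; each of them shares an index with another one.  Density: boundary points of the sectors (multiples `s v_i`, `s ≥ 0`) are limits of `s v_i + t v_i + t v_j`, `t → 0+`. -/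
def StFCE : Prop :=
  (∃ (F : Fin 3 → Set E3) (N : Fin 3 → E3), Faces Ycone 3 F N ∧
    (∀ (i : Fin 3) (s ε : ℝ), 0 < ε → ∃ x ∈ F i, dist x (pt 0 0 s) < ε) ∧
    ∀ v : E3, (∀ i, dt v (N i) = 0) → v 0 = 0 ∧ v 1 = 0) ∧
  ∃ (F : Fin 6 → Set E3) (N : Fin 6 → E3), Faces Tcone 6 F N ∧
    ∀ v : E3, (∀ i, dt v (N i) = 0) → v = 0

/-- G0 (points on the faces near a singular point are regular).  Uses `StTC1`, `StMDY`, `StMDT`.

PROOF.  `Γ` (two circles) is closed, `fderiv ℝ Φ` is continuous on `U` and invertible at `p` (isometric), so there is `ε` with: `dist q p < ε` implies `q ∈ U`, `q ∉ Γ`, `A = fderiv ℝ Φ q` invertible.  Let `q ∈ S`, `Φ q ∈ F i`: near `q`: `x ∈ S ↔ Φ x ∈ M ↔ dt (Φ x) (N i) = 0 ↔ dt (Φ x - Φ q) (N i) = 0`.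
TC1 for the chart `x ↦ Φ x - Φ q` and the closed cone `{y | dt y (N i) = 0}`: `TCn S q = {v | dt (A v) (N i) = 0}`, a linear subspace.  By MPS.int `q` is regular or a `Y` or `T` point; in the last two cases TC1 gives `TCn S q = B⁻¹ Ycone` or `B⁻¹ Tcone` with an invertible linear `B`, and these are not
invariant under `v ↦ -v`: `(1,0,0) ∈ Ycone`, `(-1,0,0) ∉ Ycone` (MDY), `v_0 = tv 0 ∈ Tcone`, `-v_0 = v_1 + v_2 + v_3 ∉ Tcone`. -/
def StG0 : Prop := ∀ (r0 r1 h : ℝ) (S : Set E3), MPS S (circ r0 0 ∪ circ r1 h) →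
  ∀ (M : Set E3) (m : ℕ) (F : Fin m → Set E3) (N : Fin m → E3), (M = Ycone ∨ M = Tcone) →
  Faces M m F N → ∀ p ∈ S, p ∉ circ r0 0 ∪ circ r1 h → ∀ (Φ : E3 → E3) (U : Set E3), IsOpen U →
  p ∈ U → ContDiffOn ℝ 1 Φ U → Φ p = 0 → (∀ v, ‖fderiv ℝ Φ p v‖ = ‖v‖) →
  (∀ x ∈ U, x ∈ S ↔ Φ x ∈ M) →
  ∃ ε : ℝ, 0 < ε ∧ ∀ q ∈ S, dist q p < ε → q ∈ U ∧ q ∉ circ r0 0 ∪ circ r1 h ∧
    (∀ v, v ≠ 0 → fderiv ℝ Φ q v ≠ 0) ∧
    ∀ i, Φ q ∈ F i → RegP S q ∧ ∀ v, v ∈ TCn S q ↔ dt (fderiv ℝ Φ q v) (N i) = 0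

/-- every regular point off the axis is `Tgt` or `Nrm` -/
def TN (r0 r1 h : ℝ) (S : Set E3) : Prop :=
  ∀ q ∈ S, q ∉ circ r0 0 ∪ circ r1 h → RegP S q → 0 < rad q → Tgt S q ∨ Nrm S q

/-- a regular point off the axis where the rotation field is normal -/
def NP (r0 r1 h : ℝ) (S : Set E3) (q : E3) : Prop :=
  q ∈ S ∧ q ∉ circ r0 0 ∪ circ r1 h ∧ RegP S q ∧ 0 < rad q ∧ Nrm S q

/-- G1 (near a normal point the surface is a vertical plane through the axis).  Uses `StTC2`.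

PROOF.  `f`, `U` from RegP; `TCn S x = ker (fderiv f x)` for `x ∈ S ∩ U` (TC2), all these `x` are regular (same `f`), and near `q` they are not in `Γ` and off the axis.  `G x = (D 0 f x, D 1 f x, D 2 f x)`, `fderiv f x v = dt (G x) v`.  `κ(x) = (dt (G x) (Jv x))²/(dt (G x)(G x) · dt (Jv x)(Jv x))` is continuous near `q`.
Tgt: `κ = 0`; Nrm: `ker ⊆ (Jv x)^⊥`, so `G x` is a multiple of `Jv x`, `κ = 1`.  As `κ(q) = 1`: `κ > 1/2` near `q`, so all points of `S` near `q` are Nrm.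
`e = Jv q/rad q` (unit vector), `F x = dt x (Jv q)`; `P = {F = 0}` contains `q` and the axis.  `f` restricted to `P` near `q`: let `y ∈ P` be near `q`.  Implicit function theorem: near `q`, `S` is the graph `x = y + u(y) e` over `y ∈ P` (`∂_e f(q) ≠ 0`), `u(q) = 0`, `u` is `C¹` on a disc of `P`.  The angle
`A(x) = dt x e / dt x r` (`r = (q 0, q 1, 0)/rad q`; `tan` of the angle to `q`) is `C¹` near `q`, its derivative at `x` is a multiple of `dt · (Jv x)` (`dt x r · e - dt x e · r` is a multiple of `Jv x`), so it vanishes on the tangent vectors `ker (fderiv f x)` of `S`.  Hence the derivative of `y ↦ A(y + u(y) e)` vanishes, it is constant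
`= A(q) = 0` on the disc: `u(y) = dt (y + u(y)e) e = 0`.  So near `q`: `x ∈ S ↔ x ∈ P`. -/
def StG1 : Prop := ∀ (r0 r1 h : ℝ) (S : Set E3), TN r0 r1 h S → ∀ q, NP r0 r1 h S q →
  ∃ ε : ℝ, 0 < ε ∧ (∀ x ∈ S, dist x q < ε → NP r0 r1 h S x) ∧
    ∀ x : E3, dist x q < ε → (x ∈ S ↔ dt x (Jv q) = 0)

/-- G2 (limits of normal points: regular points).  Uses `StTC2`.

PROOF.  As in G1: with `f`, `U` of `y`, `κ` is continuous near `y`, `κ = 1` at normal points, so `κ(y) = 1`: `G y` is a multiple of `Jv y` (equality in Cauchy-Schwarz), so `ker (fderiv f y) = (Jv y)^⊥`: Nrm. -/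
def StG2 : Prop := ∀ (r0 r1 h : ℝ) (S : Set E3) (y : E3) (z : ℕ → E3), y ∈ S →
  y ∉ circ r0 0 ∪ circ r1 h → RegP S y → 0 < rad y → (∀ n, NP r0 r1 h S (z n)) →
  Tendsto z atTop (𝓝 y) → NP r0 r1 h S y

/-- G3 (limits of normal points are not on the circles).  Uses `StTC1`, `StTC2`.

PROOF.  Let `y ∈ Γ` be the limit of normal points `z n`; `0 < rad y` (the radii are positive).  `Φ`, `U` from BdyP at `y`, `A x = fderiv Φ x`, invertible near `y`.  Let `x ∈ S` be near `y` with `Φ x 0 > 0`: then near `x` the set `S` is `{Φ 1 = 0}`, so `TCn S x = {v | (A x v) 1 = 0}` (TC1 with `Φ - Φ x` and the closed cone `{y 1 = 0}`).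
If `Φ x 0 = 0` then `TCn S x = {v | 0 ≤ (A x v) 0, (A x v) 1 = 0}` (TC1), not invariant under `v ↦ -v`.  (i) `x ∈ Γ` near `y`: BdyP at `x` and TC1 give `TCn S x = B⁻¹{0 ≤ y 0, y 1 = 0}`, not invariant under `-1`, so `Φ x 0 = 0`, and `Φ x 1 = 0` as `x ∈ S`.  In particular `Φ (rot θ y)` has the first two
coordinates `0` for small `θ` (`rot θ y ∈ Γ`); the derivative at `θ = 0`: `(A y (Jv y)) 1 = 0`.  (ii) `z n` is regular, so `TCn S (z n)` is the kernel of a linear form (TC2), invariant under `-1`: `Φ (z n) 0 > 0`, `TCn S (z n) = {v | (A (z n) v) 1 = 0}`, and Nrm: it is contained in `(Jv (z n))^⊥`, so the linear forms `v ↦ (A (z n) v) 1` and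
`dt · (Jv (z n))` are proportional: `(A (z n) v) 1 · dt w (Jv (z n)) = (A (z n) w) 1 · dt v (Jv (z n))` for all `v, w`.  Limit: the same at `y`; with `w = Jv y`: `(A y v) 1 · dt (Jv y) (Jv y) = 0` for all `v`, so `(A y v) 1 = 0` for all `v`, a contradiction (`A y` is surjective). -/
def StG3 : Prop := ∀ (r0 r1 h : ℝ) (S : Set E3) (y : E3) (z : ℕ → E3), 0 < r0 → 0 < r1 →
  MPS S (circ r0 0 ∪ circ r1 h) → y ∈ circ r0 0 ∪ circ r1 h → (∀ n, NP r0 r1 h S (z n)) →
  Tendsto z atTop (𝓝 y) → False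

/-- G4 (limits of normal points are not singular points).  Uses `StFCE`, `StG0`, `StG1`.

PROOF.  `y ∈ S \ Γ`, off the axis, `ModelAt S M y`, `M = Ycone` or `Tcone`, chart `Φ`, `U`; faces `F i`, normals `N i` (FCE), `ε` from G0.  For large `n`, by G1 all points of `S` near `z n` are normal points, and the face points are dense in `S` near `y` (Faces (3) and `Φ` is a local homeomorphism), so there are normal points
`z' n → y` with `Φ (z' n) ∈ F (i n)`; pass to a subsequence with constant `i n = i`.  `A x = fderiv Φ x`.  G0: `TCn S (z' n) = {v | dt (A v) (N i) = 0} ⊆ (Jv (z' n))^⊥`, so the two linear forms are proportional: `dt (A v) (N i) · dt w (Jv) = dt (A w) (N i) · dt v (Jv)` for all `v, w`, at `z' n`; in the limit at `y`.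
`A y` is a linear isometry; `J = Jv y ≠ 0`, `dt v J = dt (A v) (A J)`.  So `dt (A v) (N i) dt (A w) (A J) = dt (A w)(N i) dt (A v)(A J)` for all `v, w`: `A J = λ N i`, `λ ≠ 0`.
Choose `j` with `dt (N i) (N j) ≠ 0`, `dt (N i) (N j)² ≠ 1` and face points `x n → y` with `Φ (x n) ∈ F j` (Faces (4)).  By TN each `x n` (off the axis for large `n`) is Tgt or Nrm, one of them for infinitely many `n`.  Tgt: `dt (A (x n) (Jv (x n))) (N j) = 0`, limit: `dt (A J) (N j) = λ dt (N i)(N j) = 0`, a contradiction.  Nrm: as above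
`A J = μ N j`, so `N i`, `N j` are parallel unit vectors, `dt (N i)(N j)² = 1`, a contradiction. -/
def StG4 : Prop := ∀ (r0 r1 h : ℝ) (S : Set E3) (y : E3) (z : ℕ → E3),
  MPS S (circ r0 0 ∪ circ r1 h) → TN r0 r1 h S → y ∈ S → y ∉ circ r0 0 ∪ circ r1 h → 0 < rad y →
  (ModelAt S Ycone y ∨ ModelAt S Tcone y) → (∀ n, NP r0 r1 h S (z n)) →
  Tendsto z atTop (𝓝 y) → False

/-- G5 (there are no normal points).  Uses `StG1`, `StG2`, `StG3`, `StG4`.

PROOF.  Suppose `q` is a normal point; `J = Jv q`, `P = {x | dt x J = 0}`, `ξ x = q 0 * x 0 + q 1 * x 1`.  `Z = {x ∈ P : NP x, ξ x ≥ ξ q}`, `ξ q = rad q ^ 2 > 0`, `q ∈ Z ⊆ S`.  The closure of `Z` is compact; let `y` be a point of it where `ξ` is maximal, `y = lim z n`, `z n ∈ Z`.  `y ∈ S`, `y ∈ P`, `ξ y ≥ ξ q > 0`, so `rad y > 0` and `(y 0, y 1)` is a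
positive multiple of `(q 0, q 1)`: `Jv y = λ J`, `λ > 0`.  By G3 `y ∉ Γ`, by G4 and MPS.int `y` is regular, by G2 a normal point.  G1 at `y`: near `y`, `S = {dt x (Jv y) = 0} = P`, consisting of normal points: `y + t (q 0, q 1, 0)` for small `t > 0` is in `Z` and `ξ` is larger there: a contradiction. -/
def StG5 : Prop := ∀ (r0 r1 h : ℝ) (S : Set E3), 0 < r0 → 0 < r1 → MPS S (circ r0 0 ∪ circ r1 h) →
  TN r0 r1 h S → ∀ q, ¬ NP r0 r1 h S q

/-- every regular point off the axis is `Tgt` -/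
def TT (r0 r1 h : ℝ) (S : Set E3) : Prop :=
  ∀ q ∈ S, q ∉ circ r0 0 ∪ circ r1 h → RegP S q → 0 < rad q → Tgt S q

/-- G6 (regular points move in `S`).  Uses `StTC2`.

PROOF.  `f`, `U` from RegP at `y`.  `H x = fderiv f x (Jv x)` is `C¹` near `y` (`f` is `C²`, `Jv` linear) and vanishes at all points of `S` near `y` (they are regular, off the axis, not in `Γ`; Tgt and TC2).  Claim: `|H x| ≤ C |f x|` near `y`: let `w` with `fderiv f y w > 0`, so `∂_w f ≥ c > 0` near `y`; for `x` near `y` there is `t` with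
`|t| ≤ |f x|/c` and `f (x + t w) = 0` (intermediate value theorem), so `x + t w ∈ S`, `H (x + t w) = 0`, `|H x| ≤ Lip |t| |w|`.  `g s = f (rot s y)`: `g 0 = 0`, `g' s = H (rot s y)` (`d/ds rot s y = Jv (rot s y)`), `|g'| ≤ C|g|` for small `|s|`: Gronwall (`norm_le_gronwallBound_of_norm_deriv_right_le` or the derivative of
`g² e^{∓2Cs}`): `g = 0` for small `|s|`. -/
def StG6 : Prop := ∀ (r0 r1 h : ℝ) (S : Set E3), TT r0 r1 h S → ∀ y ∈ S,
  y ∉ circ r0 0 ∪ circ r1 h → 0 < rad y → RegP S y →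
  ∃ ε : ℝ, 0 < ε ∧ ∀ s : ℝ, |s| < ε → rot s y ∈ S

/-- G7 (`Y` points move in `S`; there are no `T` points off the axis).  Uses `StFCE`, `StG0`.

PROOF.  `Φ`, `U`, faces and `ε` as in G0, `A x = fderiv Φ x`.  (T) For every `i` there are points `x n → y` with `Φ (x n) ∈ F i` (Faces (4)); they are regular and Tgt: `dt (A (x n) (Jv (x n))) (N i) = 0`; limit: `dt (A y (Jv y)) (N i) = 0` for all `i`, so `A y (Jv y) = 0`, `Jv y = 0`, a contradiction to `rad y > 0`.
(Y) Let `Φ⁻¹` be the local inverse of `Φ` at `y` (`C¹`), `γ t = Φ⁻¹ (pt 0 0 t)` for `|t| < δ`, `γ 0 = y`, `γ t ∈ S`.  The same argument at `q = γ t` (FCE: `pt 0 0 t` is a limit of points of each `F i`): `dt (A q (Jv q)) (N i) = 0` for all `i`, so `A q (Jv q) = μ(t) pt 0 0 1`, `μ(t) ≠ 0` (as `A q` is invertible, `Jv q ≠ 0`), `μ` continuous, so of constant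
sign.  `γ' t = (A q)⁻¹ (pt 0 0 1) = Jv (γ t)/μ(t)`.  So `rad²` and the height are constant along `γ` (their derivatives in the direction `Jv` vanish), and `γ t = rot (a t) y` with `a t = ∫_0^t 1/μ` (uniqueness for the linear ODE: `rot (-(a t)) (γ t)` has derivative `0`).  `a` is continuous and strictly monotone with `a 0 = 0`, so its range contains `(-ε, ε)`. -/
def StG7 : Prop := ∀ (r0 r1 h : ℝ) (S : Set E3), MPS S (circ r0 0 ∪ circ r1 h) → TT r0 r1 h S →
  ∀ y ∈ S, y ∉ circ r0 0 ∪ circ r1 h → 0 < rad y →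
  ¬ ModelAt S Tcone y ∧ (ModelAt S Ycone y → ∃ ε : ℝ, 0 < ε ∧ ∀ s : ℝ, |s| < ε → rot s y ∈ S)

/-- G8 (rotational invariance).  Uses `StG5`, `StG6`, `StG7`.

PROOF.  By G5, TN implies TT.  Let `x ∈ S`.  If `rad x = 0` then `rot θ x = x`; if `x ∈ Γ` then `rot θ x ∈ Γ ⊆ S`.  Otherwise `I = {θ : rot θ x ∈ S}` is closed (`S` is closed), contains `0`, and is open: for `θ ∈ I`, `y = rot θ x` is in `S`, not in `Γ` (`Γ` is invariant), `rad y = rad x > 0`, regular or a `Y` point (G7: not `T`), so `rot s y = rot (s+θ) x ∈ S`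
for small `|s|` (G6, G7).  So `I = ℝ` (`IsClopen.eq_univ`). -/
def StG8 : Prop := ∀ (r0 r1 h : ℝ) (S : Set E3), 0 < r0 → 0 < r1 → MPS S (circ r0 0 ∪ circ r1 h) →
  TN r0 r1 h S → RotInv S

end Pool.Agent.Helper69.MF
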